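import Pool.Agent.Helper32_ABCT.Stmts
import Pool.Agent.Helper32_ABCT.Api3

/-!
# Facet data are invariant under isomorphisms of flat cells (MP_a17fcb_ag, module CISO)
-/

open MvPolynomial

namespace ABCT

namespace H40

open FlatCell

/-- the bijection of the variables -/
def iV {S S' : FlatCell} (e : S.G ≃ S'.G) : S.V ≃ S'.V := Equiv.sumCongr (Equiv.refl ℕ) e

/-- the embedding of the variables -/
def iE {S S' : FlatCell} (e : S.G ≃ S'.G) : S.V ↪ S'.V :=
  ⟨Sum.map id e, Function.Injective.sumMap Function.injective_id e.injective⟩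

theorem iE_iV {S S' : FlatCell} (e : S.G ≃ S'.G) (v : S.V) : iE e v = iV e v := rfl

theorem iso_ev {S S' : FlatCell} {e : S.G ≃ S'.G} (h : FlatIso S S' e) {R : Type*}
    [CommSemiring R] (y : S'.V → R) (I : Finset ℕ) :
    S'.ev y I = S.ev (fun v => y (iE e v)) I := by
  rw [ev_eq, ev_eq, ← h.2 I, eval₂_rename]
  rfl

theorem iso_pol {S S' : FlatCell} {e : S.G ≃ S'.G} (h : FlatIso S S' e) (I : Finset ℕ) :
    S'.pol I = rename (iE e) (S.pol I) := by
  rw [← ev_X, iso_ev h, ev_rename]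

theorem iso_P {S S' : FlatCell} {e : S.G ≃ S'.G} (h : FlatIso S S' e) (I : Finset ℕ) :
    S'.P I = liftF (iE e) (S.P I) := by
  rw [liftF_P, FlatCell.P, iso_ev h]
  rfl

theorem iso_supp {S S' : FlatCell} {e : S.G ≃ S'.G} (h : FlatIso S S' e) (I : Finset ℕ)
    (μ : S'.V →₀ ℕ) : μ ∈ (S'.pol I).support ↔
      ∃ a ∈ (S.pol I).support, μ = a.mapDomain (iE e) := by
  classical
  rw [iso_pol h, support_rename_of_injective (iE e).injective, Finset.mem_image]
  constructor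
  · rintro ⟨a, ha, rfl⟩; exact ⟨a, ha, rfl⟩
  · rintro ⟨a, ha, rfl⟩; exact ⟨a, ha, rfl⟩

/-- the isomorphism of exponent groups -/
noncomputable def iX {S S' : FlatCell} (e : S.G ≃ S'.G) : (S.V →₀ ℤ) ≃+ (S'.V →₀ ℤ) :=
  Finsupp.domCongr (iV e)

theorem iX_apply {S S' : FlatCell} (e : S.G ≃ S'.G) (m : S.V →₀ ℤ) (v : S.V) :
    iX e m (iE e v) = m v := by
  rw [iX, Finsupp.domCongr_apply, Finsupp.equivMapDomain_apply, iE_iV, Equiv.symm_apply_apply]

theorem iX_eq {S S' : FlatCell} (e : S.G ≃ S'.G) (m : S.V →₀ ℤ) :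
    iX e m = m.mapDomain (iE e) := by
  rw [iX, Finsupp.domCongr_apply, Finsupp.equivMapDomain_eq_mapDomain]
  rfl

theorem iX_zexp {S S' : FlatCell} (e : S.G ≃ S'.G) (a : S.V →₀ ℕ) :
    iX e (zexp a) = zexp (a.mapDomain (iE e)) := by
  classical
  rw [iX_eq]
  ext v
  obtain ⟨u, rfl⟩ : ∃ u, iE e u = v := (iV e).surjective v
  rw [Finsupp.mapDomain_apply (iE e).injective, zexp, zexp, Finsupp.mapRange_apply,
    Finsupp.mapRange_apply, Finsupp.mapDomain_apply (iE e).injective]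

theorem iX_lmono {S S' : FlatCell} (e : S.G ≃ S'.G) {K : Type*} [Field K] (y : S'.V → K)
    (m : S.V →₀ ℤ) : lmono y (iX e m) = lmono (fun v => y (iE e v)) m := by
  rw [iX_eq, lmono, lmono, Finsupp.prod_mapDomain_index_inj (iE e).injective]

theorem iX_mono {S S' : FlatCell} (e : S.G ≃ S'.G) (m : S.V →₀ ℤ) :
    S'.mono (iX e m) = liftF (iE e) (S.mono m) := by
  rw [mono_eq, mono_eq, iX_lmono, lmono_map]
  refine congrArg (fun y => lmono y m) (funext fun v => ?_)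
  exact (liftF_x (iE e) v).symm

theorem iX_Lam {S S' : FlatCell} {e : S.G ≃ S'.G} (h : FlatIso S S' e) :
    S'.Lam = S.Lam.map (iX e).toAddMonoidHom := by
  rw [FlatCell.Lam, FlatCell.Lam, AddMonoidHom.map_closure]
  refine congrArg AddSubgroup.closure (Set.ext fun m => ?_)
  constructor
  · rintro ⟨I, hI, J, hJ, μ, hμ, ν, hν, rfl⟩
    rw [← h.1] at hI hJ
    obtain ⟨a, ha, rfl⟩ := (iso_supp h I μ).mp hμ
    obtain ⟨b, hb, rfl⟩ := (iso_supp h J ν).mp hν
    refine ⟨zexp a - zexp b, ⟨I, hI, J, hJ, a, ha, b, hb, rfl⟩, ?_⟩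
    show iX e (zexp a - zexp b) = _
    rw [map_sub, iX_zexp, iX_zexp]
  · rintro ⟨_, ⟨I, hI, J, hJ, a, ha, b, hb, rfl⟩, rfl⟩
    rw [h.1] at hI hJ
    refine ⟨I, hI, J, hJ, _, (iso_supp h I _).mpr ⟨a, ha, rfl⟩, _,
      (iso_supp h J _).mpr ⟨b, hb, rfl⟩, ?_⟩
    show iX e (zexp a - zexp b) = _
    rw [map_sub, iX_zexp, iX_zexp]

theorem mem_Lam {S S' : FlatCell} {e : S.G ≃ S'.G} (h : FlatIso S S' e) (m : S.V →₀ ℤ) :
    m ∈ S.Lam ↔ iX e m ∈ S'.Lam := by
  rw [iX_Lam h, AddSubgroup.mem_map]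
  constructor
  · intro hm; exact ⟨m, hm, rfl⟩
  · rintro ⟨m', hm', h'⟩
    have : m' = m := (iX e).injective h'
    rwa [← this]

theorem lab_iff {S S' : FlatCell} (e : S.G ≃ S'.G) (m : S.V →₀ ℤ) :
    (∀ i : ℕ, (iX e m) (Sum.inl i) = 0) ↔ ∀ i : ℕ, m (Sum.inl i) = 0 := by
  apply forall_congr'
  intro i
  have : (Sum.inl i : S'.V) = iE e (Sum.inl i) := rfl
  rw [this, iX_apply]

theorem lift_gap {T T' : FlatCell} (f : T.G ≃ T'.G) (a : T.F) (ha : a ∈ T.gapField) :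
    liftF (iE f) a ∈ T'.gapField :=
  liftF_gap (iE f) (fun h => ⟨f h, rfl⟩) a ha

theorem lift_gapLam {T T' : FlatCell} {f : T.G ≃ T'.G} (h : FlatIso T T' f) (a : T.F)
    (ha : a ∈ T.gapLamField) : liftF (iE f) a ∈ T'.gapLamField := by
  let E : IntermediateField ℂ T.F :=
    { carrier := {a | liftF (iE f) a ∈ T'.gapLamField}
      mul_mem' := fun {a b} ha hb => by
        show liftF (iE f) (a * b) ∈ T'.gapLamField; rw [map_mul]; exact mul_mem ha hb
      add_mem' := fun {a b} ha hb => by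
        show liftF (iE f) (a + b) ∈ T'.gapLamField; rw [map_add]; exact add_mem ha hb
      algebraMap_mem' := fun a => by
        show liftF (iE f) (algebraMap ℂ _ a) ∈ T'.gapLamField
        rw [liftF_C]; exact IntermediateField.algebraMap_mem _ _
      inv_mem' := fun a ha => by
        show liftF (iE f) a⁻¹ ∈ T'.gapLamField; rw [map_inv₀]; exact inv_mem ha }
  have : T.gapLamField ≤ E := by
    apply IntermediateField.adjoin_le_iff.mpr
    rintro _ ⟨m, hm, h0, rfl⟩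
    show liftF (iE f) (T.mono m) ∈ T'.gapLamField
    rw [← iX_mono]
    exact IntermediateField.subset_adjoin _ _ ⟨_, (mem_Lam h m).mp hm, (lab_iff f m).mpr h0, rfl⟩
  exact this ha

section main

variable {S S' T T' : FlatCell} (e : S.G ≃ S'.G) (f : T.G ≃ T'.G) (φ : FacetData S T)

theorem symm_iE (v : S.V) : Sum.map id e.symm (iE e v) = v := by
  rcases v with i | h
  · rfl
  · show Sum.inr (e.symm (e h)) = _
    rw [Equiv.symm_apply_apply]

theorem iso_w (v : S.V) : (isoFD e f φ).w (iE e v) = liftF (iE f) (φ.w v) := by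
  show liftF (iE f) (φ.w (Sum.map id e.symm (iE e v))) = _
  rw [symm_iE]

theorem iso_lam (v : S.V) : (isoFD e f φ).lam (iE e v) = φ.lam v := by
  show φ.lam (Sum.map id e.symm (iE e v)) = _
  rw [symm_iE]

theorem iso_phi (hS : FlatIso S S' e) (I : Finset ℕ) :
    (isoFD e f φ).P I = mapR (liftF (iE f)) (φ.P I) := by
  rw [FacetData.P, iso_ev hS, FacetData.P, map_ev]
  refine congrArg (fun y => S.ev y I) (funext fun v => ?_)
  rw [FacetData.psi, iso_w, iso_lam, FacetData.psi, map_mul, map_zpow₀, mapR_s, mapR_C]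

theorem iso_pair (m : S.V →₀ ℤ) : (isoFD e f φ).pair (iX e m) = φ.pair m := by
  rw [FacetData.pair, FacetData.pair, iX_eq,
    Finsupp.sum_mapDomain_index_inj (iE e).injective]
  apply Finsupp.sum_congr
  intro v _
  rw [iso_lam]

theorem iso_wmono (m : S.V →₀ ℤ) :
    (isoFD e f φ).wmono (iX e m) = liftF (iE f) (φ.wmono m) := by
  rw [wmono_eq, wmono_eq, iX_lmono, lmono_map]
  exact congrArg (fun y => lmono y m) (funext fun v => iso_w e f φ v)

end main

theorem ciso : CisoStmt := by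
  intro S S' T T' e f hS hT φ hφ
  have hP : ∀ I, (isoFD e f φ).P I = mapR (liftF (iE f)) (φ.P I) := iso_phi e f φ hS
  have hMon : ∀ a ∈ Mon T.M φ.P, mapR (liftF (iE f)) a ∈ Mon T'.M (isoFD e f φ).P := by
    intro a ha
    have h1 := mon_map (mapR (liftF (iE f))) ha
    rw [← hT.1]
    rwa [mon_congr (fun I _ => hP I)]
  refine ⟨?_, ?_, ?_, ?_, ?_, ?_, ?_, ?_, ?_, ?_, ?_⟩
  · intro v
    exact PosF.liftF _ (hφ.wpos _)
  · intro i
    have h1 := lift_gap f _ (hφ.wlab i)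
    rw [map_div₀, flat_x, liftF_x] at h1
    exact h1
  · intro h
    exact lift_gap f _ (hφ.wgap _)
  · exact PosF.liftF _ hφ.kpos
  · exact lift_gap f _ hφ.kgap
  · rw [← hS.1, ← hT.1]; exact hφ.sub
  · intro I hI
    rw [← hS.1] at hI
    obtain ⟨R, hR⟩ := hφ.r2 I hI
    refine ⟨R.map (liftF (iE f)), ?_⟩
    rw [hP, hR]
    simp only [map_mul, map_add, map_zpow₀, mapR_s, mapR_C, mapR_algebraMap]
    rw [iso_P hT]
    rfl
  · intro I hI μ hμ
    rw [← hT.1] at hI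
    obtain ⟨a, ha, rfl⟩ := (iso_supp hT I μ).mp hμ
    have h1 := hMon _ (hφ.r3 I hI a ha)
    rw [map_div₀, map_mul, map_mul, map_zpow₀, mapR_s, mapR_C, mapR_C, ← hP, ← iX_mono, iX_zexp]
      at h1
    exact h1
  · obtain ⟨I₁, h1, h1', I₀, h0, h, hh, y, hy, hy'⟩ := hφ.r3s
    rw [hS.1] at h1
    rw [hT.1] at h1' h0
    refine ⟨I₁, h1, h1', I₀, h0, mapR (liftF (iE f)) h, hMon _ hh, liftF (iE f) y, ?_, ?_⟩
    · rw [Ne, map_eq_zero]; exact hy
    · have h2 := congrArg (mapR (liftF (iE f))) hy'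
      rw [map_div₀, map_mul, map_mul, mapR_s, mapR_C, ← hP, ← hP] at h2
      exact h2
  · obtain ⟨θ, hadd, hgl, hlab, heq⟩ := hφ.res
    have hpS : ∀ m : S.V →₀ ℤ, (m ∈ S.Lam ∧ φ.pair m = 0) ↔
        (iX e m ∈ S'.Lam ∧ (isoFD e f φ).pair (iX e m) = 0) := by
      intro m
      rw [iso_pair, ← mem_Lam hS]
    let A : {m : S.V →₀ ℤ // m ∈ S.Lam ∧ φ.pair m = 0} ≃
        {m : S'.V →₀ ℤ // m ∈ S'.Lam ∧ (isoFD e f φ).pair m = 0} :=
      (iX e).toEquiv.subtypeEquiv hpS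
    let B : T.Lam ≃ T'.Lam := (iX f).toEquiv.subtypeEquiv (fun m => mem_Lam hT m)
    have hA : ∀ m, (A m).1 = iX e m.1 := fun m => rfl
    have hB : ∀ m, ((B m : T'.Lam) : T'.V →₀ ℤ) = iX f (m : T.V →₀ ℤ) := fun m => rfl
    refine ⟨A.symm.trans (θ.trans B), ?_, ?_, ?_, ?_⟩
    · intro a b c hc
      obtain ⟨a, rfl⟩ := A.surjective a
      obtain ⟨b, rfl⟩ := A.surjective b
      obtain ⟨c, rfl⟩ := A.surjective c
      simp only [Equiv.trans_apply, Equiv.symm_apply_apply]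
      rw [hB, hB, hB]
      rw [hA, hA, hA, ← map_add] at hc
      rw [hadd a b c ((iX e).injective hc), map_add]
    · intro m
      obtain ⟨m, rfl⟩ := A.surjective m
      simp only [Equiv.trans_apply, Equiv.symm_apply_apply]
      rw [hB, hA, iso_wmono, iX_mono, ← map_div₀]
      exact lift_gapLam hT _ (hgl m)
    · intro m
      obtain ⟨m, rfl⟩ := A.surjective m
      simp only [Equiv.trans_apply, Equiv.symm_apply_apply]
      rw [hB, hA, lab_iff, lab_iff]
      exact hlab m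
    · intro m
      obtain ⟨m, rfl⟩ := A.surjective m
      simp only [Equiv.trans_apply, Equiv.symm_apply_apply]
      rw [hB, hA, iso_wmono, iX_mono, lab_iff]
      intro h0
      rw [heq m h0]
  · obtain ⟨m, hm, hm'⟩ := hφ.one
    exact ⟨iX e m, (mem_Lam hS m).mp hm, by rw [iso_pair]; exact hm'⟩

end H40

end ABCT
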