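import Pool.Agent.Helper32_ABCT.Stmts

/-!
# ABCT, module VREN: renaming a label
-/

open MvPolynomial

namespace ABCT.H40

theorem getD_map_perm (φ : Equiv.Perm ℕ) (l : List ℕ) {i : ℕ} (hi : i < l.length) :
    (l.map φ).getD i 0 = φ (l.getD i 0) := by
  rw [List.getD_eq_getElem _ _ (by simpa using hi), List.getD_eq_getElem _ _ hi, List.getElem_map]

theorem prsAll_map (φ : Equiv.Perm ℕ) (l : List ℕ) (I : Finset ℕ) :
    prsAll (l.map φ) (I.image φ) = prsAll l I := by
  ext p
  unfold prsAll
  simp only [Finset.mem_filter, Finset.mem_product, Finset.mem_range, List.length_map]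
  constructor
  · rintro ⟨⟨h1, h2⟩, h3, h4, h5⟩
    rw [getD_map_perm φ l h1, φ.injective.mem_finset_image] at h4
    rw [getD_map_perm φ l h2, φ.injective.mem_finset_image] at h5
    exact ⟨⟨h1, h2⟩, h3, h4, h5⟩
  · rintro ⟨⟨h1, h2⟩, h3, h4, h5⟩
    refine ⟨⟨h1, h2⟩, h3, ?_, ?_⟩
    · rw [getD_map_perm φ l h1, φ.injective.mem_finset_image]; exact h4
    · rw [getD_map_perm φ l h2, φ.injective.mem_finset_image]; exact h5

theorem Q_map {K : Type*} [CommRing K] (φ : Equiv.Perm ℕ) (l : List ℕ) (r : ℕ) (κ : K) (c t : ℕ → K)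
    (I : Finset ℕ) : Q (l.map φ) r κ c t (I.image φ) = Q l r κ (c ∘ φ) (t ∘ φ) I := by
  have hmem : I.image φ ∈ (l.map φ).toFinset.powersetCard r ↔ I ∈ l.toFinset.powersetCard r := by
    have h1 : (l.map φ).toFinset = l.toFinset.image φ := by
      ext x; simp
    rw [Finset.mem_powersetCard, Finset.mem_powersetCard, h1,
      Finset.image_subset_image_iff φ.injective, Finset.card_image_of_injective _ φ.injective]
  unfold Q
  by_cases h : I ∈ l.toFinset.powersetCard r
  · rw [if_pos h, if_pos (hmem.2 h), prsAll_map, Finset.prod_image (fun a _ b _ h => φ.injective h)]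
    congr 1
    apply Finset.prod_congr rfl
    intro p hp
    unfold prsAll at hp
    simp only [Finset.mem_filter, Finset.mem_product, Finset.mem_range] at hp
    rw [getD_map_perm φ l hp.1.1, getD_map_perm φ l hp.1.2]
    rfl
  · rw [if_neg h, if_neg (fun h' => h (hmem.1 h'))]

theorem map_swap {L R : List ℕ} {b q : ℕ} (hn : (L ++ [b] ++ R).Nodup) (hq : q ∉ L ++ [b] ++ R) :
    (L ++ [b] ++ R).map (Equiv.swap b q) = L ++ [q] ++ R := by
  have hL : L.map (Equiv.swap b q) = L := by
    conv_rhs => rw [← List.map_id L]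
    apply List.map_congr_left
    intro x hx
    rw [Equiv.swap_apply_of_ne_of_ne]
    · rfl
    · rintro rfl
      rw [List.append_assoc, List.nodup_append] at hn
      exact hn.2.2 x hx x (by simp) rfl
    · rintro rfl
      exact hq (by simp [hx])
  have hR : R.map (Equiv.swap b q) = R := by
    conv_rhs => rw [← List.map_id R]
    apply List.map_congr_left
    intro x hx
    rw [Equiv.swap_apply_of_ne_of_ne]
    · rfl
    · rintro rfl
      rw [List.nodup_append] at hn
      exact hn.2.2 x (by simp) x hx rfl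
    · rintro rfl
      exact hq (by simp [hx])
  rw [List.map_append, List.map_append, hL, hR]
  simp

/-- the renamed vector -/
def ren' {K : Type*} [Zero K] (b q : ℕ) (z : Finset ℕ → K) : Finset ℕ → K :=
  fun I => if b ∈ I then 0 else z (I.image (Equiv.swap b q))

theorem ren'_eq {K : Type*} [Zero K] {b q : ℕ} (hbq : b ≠ q) (z : Finset ℕ → K) :
    (fun I => if b ∈ I then 0 else if q ∈ I then z (insert b (I.erase q)) else z I) =
      ren' b q z := by
  funext I
  unfold ren'
  by_cases hb : b ∈ I
  · rw [if_pos hb, if_pos hb]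
  · rw [if_neg hb, if_neg hb]
    by_cases hq : q ∈ I
    · rw [if_pos hq]
      congr 1
      ext x
      rw [Finset.mem_insert, Finset.mem_erase, Finset.mem_image]
      constructor
      · rintro (rfl | ⟨h1, h2⟩)
        · exact ⟨q, hq, Equiv.swap_apply_right _ _⟩
        · refine ⟨x, h2, Equiv.swap_apply_of_ne_of_ne ?_ h1⟩
          rintro rfl; exact hb h2
      · rintro ⟨y, hy, rfl⟩
        by_cases hyq : y = q
        · rw [hyq, Equiv.swap_apply_right]; exact Or.inl rfl
        · have hyb : y ≠ b := by rintro rfl; exact hb hy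
          rw [Equiv.swap_apply_of_ne_of_ne hyb hyq]
          exact Or.inr ⟨hyq, hy⟩
    · rw [if_neg hq]
      congr 1
      ext x
      rw [Finset.mem_image]
      constructor
      · intro hx
        refine ⟨x, hx, Equiv.swap_apply_of_ne_of_ne ?_ ?_⟩
        · rintro rfl; exact hb hx
        · rintro rfl; exact hq hx
      · rintro ⟨y, hy, rfl⟩
        have hyb : y ≠ b := by rintro rfl; exact hb hy
        have hyq : y ≠ q := by rintro rfl; exact hq hy
        rw [Equiv.swap_apply_of_ne_of_ne hyb hyq]
        exact hy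

theorem ren'_Q {K : Type*} [CommRing K] {L R : List ℕ} {b q : ℕ} (hn : (L ++ [b] ++ R).Nodup)
    (hq : q ∉ L ++ [b] ++ R) (r : ℕ) (κ : K) (c t : ℕ → K) :
    ren' b q (Q (L ++ [b] ++ R) r κ c t) =
      Q (L ++ [q] ++ R) r κ (c ∘ Equiv.swap b q) (t ∘ Equiv.swap b q) := by
  have hbq : b ≠ q := by rintro rfl; exact hq (by simp)
  funext I
  unfold ren'
  rw [← map_swap hn hq]
  have hI : (I.image (Equiv.swap b q)).image (Equiv.swap b q) = I := by
    rw [Finset.image_image]
    have : (Equiv.swap b q : ℕ → ℕ) ∘ (Equiv.swap b q) = id := by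
      funext x; exact Equiv.swap_apply_self b q x
    rw [this, Finset.image_id]
  conv_rhs => rw [← hI, Q_map]
  have hcc : ∀ c : ℕ → K, (c ∘ Equiv.swap b q) ∘ Equiv.swap b q = c := by
    intro c
    funext x
    simp only [Function.comp, Equiv.swap_apply_self]
  rw [hcc, hcc]
  by_cases hb : b ∈ I
  · rw [if_pos hb]
    unfold Q
    rw [if_neg]
    intro h
    rw [Finset.mem_powersetCard] at h
    have h1 : q ∈ I.image (Equiv.swap b q) :=
      Finset.mem_image.2 ⟨b, hb, Equiv.swap_apply_left _ _⟩
    exact hq (List.mem_toFinset.1 (h.1 h1))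
  · rw [if_neg hb]

/-- VREN -/
theorem ren : RenStmt := by
  intro L R b q r hn hq z
  have hbq : b ≠ q := by rintro rfl; exact hq (by simp)
  rw [ren'_eq hbq]
  constructor
  · rintro ⟨κ, c, t, hκ, hc, ht, rfl⟩
    refine ⟨κ, c ∘ Equiv.swap b q, t ∘ Equiv.swap b q, hκ, fun i => hc _, ?_, ren'_Q hn hq r κ c t⟩
    rw [← map_swap hn hq, List.pairwise_map]
    simpa only [Function.comp, Equiv.swap_apply_self] using ht
  · intro hz f hf
    classical
    let g : MvPolynomial (Finset ℕ) ℂ :=
      aeval (fun I => if b ∈ I then (0 : MvPolynomial (Finset ℕ) ℂ) else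
        X (I.image (Equiv.swap b q))) f
    have hg : ∀ y : Finset ℕ → ℂ, aeval y g = aeval (ren' b q y) f := by
      intro y
      change aeval y (aeval _ f) = _
      rw [← AlgHom.comp_apply, comp_aeval]
      congr 2
      funext I
      unfold ren'
      split_ifs
      · rw [map_zero]
      · rw [aeval_X]
    have h1 := hz g (by
      intro κ c t
      rw [hg, ren'_Q hn hq]
      exact hf _ _ _)
    rw [hg] at h1
    convert h1 using 3
    unfold ren'
    funext I
    split_ifs <;> simp

end ABCT.H40
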